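import Mathlib

set_option autoImplicit false

namespace Pool.Agent.Tour.Seven

/-! ### Coding of tournaments by natural numbers -/

/-- triangular numbers -/
def tri : ℕ → ℕ
  | 0 => 0
  | n + 1 => tri n + n

/-- the arc relation of a coded tournament -/
def arc (c i j : ℕ) : Bool :=
  if i = j then false
  else if i < j then c.testBit (tri j + i) else !(c.testBit (tri i + j))

/-- a coded permutation -/
def pm (c i : ℕ) : ℕ := (c >>> (3 * i)) % 8

/-- lookup in the certificate -/
def look (R : List ℕ) (C : List (List (ℕ × ℕ))) (r m : ℕ) : ℕ × ℕ :=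
  ((C.getD (R.idxOf r) []).getD m (0, 0))

/-- certificate check -/
def check (n : ℕ) (R R' : List ℕ) (C : List (List (ℕ × ℕ))) : Bool :=
  R.all fun r => decide (r < 2 ^ tri n) && ((List.range (2 ^ n)).all fun m =>
    (R'.contains (look R C r m).1) &&
    ((List.range (n + 1)).all fun i => decide (pm (look R C r m).2 i < n + 1) &&
      ((List.range (n + 1)).all fun j =>
        (i == j || !(pm (look R C r m).2 i == pm (look R C r m).2 j)) &&
        (arc (2 ^ tri n * m + r) (pm (look R C r m).2 i) (pm (look R C r m).2 j)
          == arc (look R C r m).1 i j))))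

/-- representatives of the tournaments on 1 vertices -/
def R1 : List ℕ := [0]

/-- representatives of the tournaments on 2 vertices -/
def R2 : List ℕ := [0]

/-- representatives of the tournaments on 3 vertices -/
def R3 : List ℕ := [0, 2]

/-- representatives of the tournaments on 4 vertices -/
def R4 : List ℕ := [0, 8, 9, 2]

/-- representatives of the tournaments on 5 vertices -/
def R5 : List ℕ := [0, 64, 65, 72, 67, 66, 8, 9, 2, 81, 200, 80]

/-- representatives of the tournaments on 6 vertices -/
def R6 : List ℕ := [0, 1024, 1025, 1096, 1027, 1090, 1089, 1088, 1035, 1034, 1033, 1032, 1026, 64, 65, 72, 67, 66, 8, 9, 2, 1153, 3136, 1155, 3138, 3137, 1162, 1165, 1224, 1105, 1152, 1169, 1156, 1157, 1040, 1041, 1159, 3142, 3141, 1161, 1177, 1171, 1158, 1154, 1043, 3264, 3157, 3152, 3153, 1160, 1104, 1051, 81, 200, 80, 3340]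

/-- certificate for the step from 1 to 2 vertices -/
def C1 : List (List (ℕ × ℕ)) := [
  [(0, 8), (0, 1)]]

/-- certificate for the step from 2 to 3 vertices -/
def C2 : List (List (ℕ × ℕ)) := [
  [(0, 136), (2, 136), (0, 80), (0, 66)]]

/-- certificate for the step from 3 to 4 vertices -/
def C3 : List (List (ℕ × ℕ)) := [
  [(0, 1672), (8, 1672), (9, 1665), (8, 1091), (0, 1224), (2, 1224), (0, 1112), (0, 1091)],
  [(2, 1672), (8, 209), (8, 706), (8, 538), (8, 1224), (8, 153), (8, 1112), (9, 1112)]]

/-- certificate for the step from 4 to 5 vertices -/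
def C4 : List (List (ℕ × ℕ)) := [
  [(0, 18056), (64, 18056), (65, 18049), (72, 13380), (67, 17986), (66, 13380), (65, 13380), (64, 13380), (0, 14472), (8, 14472), (9, 14465), (8, 13380), (0, 13576), (2, 13576), (0, 13408), (0, 13380)],
  [(8, 18056), (72, 18056), (81, 18049), (200, 18056), (66, 10307), (81, 8459), (72, 8963), (72, 8739), (64, 14472), (72, 14472), (80, 14472), (81, 13408), (64, 13576), (66, 13576), (64, 13408), (65, 13408)],
  [(9, 18056), (65, 2250), (80, 18049), (81, 2250), (65, 10251), (65, 8459), (81, 10251), (66, 8291), (65, 14472), (65, 1802), (81, 14472), (66, 1634), (65, 13576), (67, 13576), (66, 13408), (67, 13408)],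
  [(2, 18056), (66, 18056), (66, 17937), (81, 12820), (66, 17986), (81, 12428), (81, 13380), (80, 13380), (2, 14472), (8, 12561), (8, 13058), (8, 12834), (8, 13576), (8, 12449), (8, 13408), (9, 13408)]]

/-- certificate for the step from 5 to 6 vertices -/
def C5 : List (List (ℕ × ℕ)) := [
  [(0, 181896), (1024, 181896), (1025, 181889), (1096, 144453), (1027, 181826), (1090, 144453), (1089, 144453), (1088, 144453), (1035, 181315), (1034, 144453), (1033, 144453), (1032, 144453), (1027, 144453), (1026, 144453), (1025, 144453), (1024, 144453), (0, 153224), (64, 153224), (65, 153217), (72, 144453), (67, 153154), (66, 144453), (65, 144453), (64, 144453), (0, 146056), (8, 146056), (9, 146049), (8, 144453), (0, 144712), (2, 144712), (0, 144488), (0, 144453)],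
  [(64, 181896), (1088, 181896), (1153, 181889), (3136, 181896), (1155, 181826), (3138, 144453), (3137, 144453), (3136, 144453), (1034, 119876), (1162, 119876), (1165, 119820), (1224, 107052), (1090, 109124), (1105, 106828), (1096, 107332), (1096, 107052), (1024, 153224), (1088, 153224), (1152, 153224), (1169, 144488), (1156, 153168), (1157, 144488), (1152, 144488), (1153, 144488), (1024, 146056), (1032, 146056), (1040, 146056), (1041, 144488), (1024, 144712), (1026, 144712), (1024, 144488), (1025, 144488)],
  [(65, 181896), (1089, 181896), (1152, 181889), (3137, 181896), (1159, 181826), (3142, 181840), (3141, 144453), (3138, 106604), (1033, 119820), (1159, 100948), (1161, 119820), (1177, 99156), (1089, 109068), (1089, 106828), (1105, 109068), (1090, 106604), (1025, 153224), (1089, 153224), (1153, 153224), (1171, 144488), (1158, 153168), (1159, 144488), (1154, 144488), (1155, 144488), (1025, 146056), (1033, 146056), (1041, 146056), (1043, 144488), (1025, 144712), (1027, 144712), (1026, 144488), (1027, 144488)],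
  [(72, 181896), (1096, 181896), (1169, 181889), (3136, 22737), (1171, 181826), (3137, 22730), (3264, 144488), (3264, 22737), (1162, 181315), (3157, 181336), (3152, 144488), (3153, 144488), (3138, 109124), (3141, 144488), (3136, 144488), (3137, 144488), (1032, 153224), (1096, 153224), (1160, 153224), (1224, 153224), (1157, 141912), (1165, 141912), (1169, 140120), (1171, 140120), (1088, 146056), (1096, 146056), (1104, 146056), (1105, 144488), (1088, 144712), (1090, 144712), (1088, 144488), (1089, 144488)],
  [(67, 181896), (1027, 22667), (1156, 181889), (1155, 22667), (1158, 181826), (1159, 22611), (3157, 144453), (1162, 17515), (1027, 118924), (1027, 101004), (1155, 118924), (1043, 101004), (1159, 118868), (1033, 99660), (1162, 99436), (1034, 99436), (1027, 153224), (1027, 19083), (1155, 153224), (1043, 19083), (1159, 153168), (1033, 17739), (1162, 144488), (1034, 17515), (1027, 146056), (1035, 146056), (1043, 146056), (1051, 146056), (1033, 144712), (1035, 144712), (1034, 144488), (1035, 144488)],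
  [(66, 181896), (1090, 181896), (1157, 181889), (3138, 181896), (1154, 181826), (3141, 181840), (3153, 144453), (3152, 144453), (1043, 118924), (1155, 101004), (1171, 118924), (1171, 101004), (1177, 119316), (1161, 99660), (1224, 107332), (1165, 99660), (1026, 153224), (1090, 153224), (1154, 153224), (1177, 144488), (1157, 153168), (1165, 144488), (1160, 144488), (1161, 144488), (1026, 146056), (1034, 146056), (1041, 144208), (1043, 144208), (1032, 144712), (1034, 144712), (1032, 144488), (1033, 144488)],
  [(8, 181896), (1032, 181896), (1041, 181889), (1224, 144453), (1043, 181826), (1177, 139805), (1171, 139805), (1169, 139805), (1034, 181315), (1162, 144453), (1161, 144453), (1160, 144453), (1155, 144453), (1154, 144453), (1153, 144453), (1152, 144453), (8, 153224), (72, 153224), (81, 153217), (200, 153224), (66, 141891), (81, 139595), (72, 140099), (72, 139819), (64, 146056), (72, 146056), (80, 146056), (81, 144488), (64, 144712), (66, 144712), (64, 144488), (65, 144488)],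
  [(9, 181896), (1033, 181896), (1040, 181889), (1165, 132693), (1033, 180426), (1159, 139357), (1165, 139357), (1157, 139357), (1033, 181259), (1159, 132693), (1165, 144453), (1157, 132693), (1159, 144453), (1158, 144453), (1157, 144453), (1156, 144453), (9, 153224), (65, 133834), (80, 153217), (81, 133834), (65, 141835), (65, 139595), (81, 141835), (66, 139371), (65, 146056), (65, 132938), (81, 146056), (66, 132714), (65, 144712), (67, 144712), (66, 144488), (67, 144488)],
  [(2, 181896), (1026, 181896), (1026, 181777), (1105, 143893), (1026, 181826), (1105, 143501), (1105, 144453), (1104, 144453), (1051, 181315), (1043, 143501), (1043, 143893), (1041, 143893), (1043, 144453), (1041, 143501), (1041, 144453), (1040, 144453), (2, 153224), (66, 153224), (66, 153105), (81, 143893), (66, 153154), (81, 143501), (81, 144453), (80, 144453), (2, 146056), (8, 143697), (8, 144194), (8, 143914), (8, 144712), (8, 143529), (8, 144488), (9, 144488)],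
  [(81, 181896), (1105, 181896), (1160, 181889), (3153, 181896), (1177, 180930), (3138, 22618), (3340, 140008), (3152, 66403), (1165, 181315), (3141, 22611), (3152, 119841), (3340, 101025), (3137, 109068), (3137, 106828), (3153, 109068), (3141, 106828), (1041, 153224), (1105, 153224), (1169, 153224), (1224, 137936), (1154, 141912), (1162, 141912), (1160, 140120), (1162, 140120), (1153, 146056), (1161, 146056), (1169, 146056), (1177, 146056), (1153, 144712), (1155, 144712), (1157, 144712), (1159, 144712)],
  [(200, 181896), (1224, 181896), (1224, 166097), (3136, 35610), (1224, 168218), (3153, 22730), (3136, 72227), (3136, 69987), (1224, 172579), (3153, 119904), (3153, 53523), (3152, 35610), (3136, 109124), (3152, 109124), (3136, 107332), (3138, 69987), (1224, 177220), (3136, 19153), (3153, 153217), (3136, 35162), (3153, 86556), (3152, 19153), (3152, 72227), (3138, 35162), (3136, 146056), (3136, 18257), (3152, 146056), (3138, 18257), (3136, 144712), (3138, 144712), (3138, 107332), (3142, 144712)],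
  [(80, 181896), (1104, 181896), (1161, 181889), (3152, 181896), (1161, 180930), (3152, 180944), (3141, 72220), (3153, 69980), (1161, 181315), (3152, 181336), (3141, 47636), (3153, 45396), (3141, 109068), (3153, 106828), (3157, 109068), (3157, 106828), (1040, 153224), (1104, 153224), (1152, 137936), (1160, 137936), (1152, 141912), (1160, 141912), (1152, 140120), (1154, 140120), (1152, 146056), (1160, 146056), (1152, 137040), (1154, 137040), (1152, 144712), (1154, 144712), (1156, 144712), (1158, 144712)]]

lemma check1 : check 1 R1 R2 C1 = true := by decide +kernel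

lemma check2 : check 2 R2 R3 C2 = true := by decide +kernel

lemma check3 : check 3 R3 R4 C3 = true := by decide +kernel

lemma check4 : check 4 R4 R5 C4 = true := by decide +kernel

lemma check5 : check 5 R5 R6 C5 = true := by decide +kernel


lemma tri_mono {a b : ℕ} (h : a ≤ b) : tri a ≤ tri b := by
  induction h with
  | refl => exact le_rfl
  | step _ ih => exact ih.trans (by simp [tri])

lemma idx_lt {i j n : ℕ} (hij : i < j) (hj : j < n) : tri j + i < tri n := by
  have : tri (j + 1) ≤ tri n := tri_mono hj
  rw [tri] at this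
  omega

/-- `T` is classified by the list `R` -/
def Classified (n : ℕ) (R : List ℕ) : Prop :=
  ∀ T : Fin n → Fin n → Prop, (∀ i, ¬ T i i) → (∀ i j, i ≠ j → (T i j ↔ ¬ T j i)) →
    ∃ r ∈ R, r < 2 ^ tri n ∧ ∃ e : Fin n → Fin n, Function.Injective e ∧
      ∀ i j, T (e i) (e j) ↔ arc r i j = true

lemma arc_low {n m r : ℕ} (hr : r < 2 ^ tri n) {i j : ℕ} (hi : i < n) (hj : j < n) :
    arc (2 ^ tri n * m + r) i j = arc r i j := by
  unfold arc
  split_ifs with h1 h2
  · rfl
  · rw [Nat.testBit_two_pow_mul_add _ hr, if_pos (idx_lt h2 hj)]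
  · rw [Nat.testBit_two_pow_mul_add _ hr, if_pos (idx_lt (by omega) hi)]

lemma arc_last {n m r : ℕ} (hr : r < 2 ^ tri n) {i : ℕ} (hi : i < n) :
    arc (2 ^ tri n * m + r) i n = m.testBit i := by
  unfold arc
  rw [if_neg (by omega), if_pos hi, Nat.testBit_two_pow_mul_add _ hr, if_neg (by omega)]
  congr 1
  omega

lemma arc_last' {n m r : ℕ} (hr : r < 2 ^ tri n) {i : ℕ} (hi : i < n) :
    arc (2 ^ tri n * m + r) n i = !m.testBit i := by
  unfold arc
  rw [if_neg (by omega), if_neg (by omega), Nat.testBit_two_pow_mul_add _ hr, if_neg (by omega)]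
  congr 2
  omega

/-- extension by one vertex -/
lemma extend {n : ℕ} {R : List ℕ} (ih : Classified n R) (T : Fin (n + 1) → Fin (n + 1) → Prop)
    (h0 : ∀ i, ¬ T i i) (h1 : ∀ i j, i ≠ j → (T i j ↔ ¬ T j i)) :
    ∃ r ∈ R, r < 2 ^ tri n ∧ ∃ m < 2 ^ n, ∃ e : Fin (n + 1) → Fin (n + 1), Function.Injective e ∧
      ∀ i j, T (e i) (e j) ↔ arc (2 ^ tri n * m + r) i j = true := by
  classical
  obtain ⟨r, hrR, hr, e, he, hT⟩ := ih (fun i j => T i.castSucc j.castSucc) (fun i => h0 _)
    (fun i j hij => h1 _ _ (fun h => hij (Fin.castSucc_injective _ h)))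
  let e' : Fin (n + 1) → Fin (n + 1) := Fin.lastCases (Fin.last n) (fun i => (e i).castSucc)
  have e'l : e' (Fin.last n) = Fin.last n := by simp [e']
  have e'c : ∀ i : Fin n, e' i.castSucc = (e i).castSucc := by intro i; simp [e']
  let f : Fin n → Bool := fun i => decide (T (e i).castSucc (Fin.last n))
  refine ⟨r, hrR, hr, Nat.ofBits f, Nat.ofBits_lt_two_pow f, e', ?_, ?_⟩
  · intro i j hij
    induction i using Fin.lastCases with
    | last =>
      induction j using Fin.lastCases with
      | last => rfl
      | cast j =>
        rw [e'l, e'c] at hij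
        exact absurd hij.symm (Fin.castSucc_ne_last _)
    | cast i =>
      induction j using Fin.lastCases with
      | last =>
        rw [e'l, e'c] at hij
        exact absurd hij (Fin.castSucc_ne_last _)
      | cast j =>
        rw [e'c, e'c] at hij
        rw [he (Fin.castSucc_injective _ hij)]
  · intro i j
    induction i using Fin.lastCases with
    | last =>
      induction j using Fin.lastCases with
      | last =>
        rw [e'l]
        simp [h0, arc]
      | cast j =>
        rw [e'l, e'c, Fin.val_last, Fin.val_castSucc, arc_last' hr j.2, Nat.testBit_ofBits_lt _ _ j.2,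
          h1 _ _ (Fin.castSucc_ne_last _).symm]
        simp [f]
    | cast i =>
      induction j using Fin.lastCases with
      | last =>
        rw [e'l, e'c, Fin.val_last, Fin.val_castSucc, arc_last hr i.2, Nat.testBit_ofBits_lt _ _ i.2]
        simp [f]
      | cast j =>
        rw [e'c, e'c, Fin.val_castSucc, Fin.val_castSucc, arc_low hr i.2 j.2]
        exact hT i j

lemma step {n : ℕ} {R R' : List ℕ} {C : List (List (ℕ × ℕ))} (hc : check n R R' C = true)
    (hR' : ∀ r ∈ R', r < 2 ^ tri (n + 1))
    (ih : Classified n R) : Classified (n + 1) R' := by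
  intro T h0 h1
  obtain ⟨r, hrR, hr, m, hm, e, he, hT⟩ := extend ih T h0 h1
  unfold check at hc
  rw [List.all_eq_true] at hc
  have h := hc r hrR
  rw [Bool.and_eq_true, List.all_eq_true] at h
  have h := h.2 m (List.mem_range.2 hm)
  rw [Bool.and_eq_true, List.all_eq_true] at h
  obtain ⟨hmem, hall⟩ := h
  set r' := (look R C r m).1
  set q := (look R C r m).2
  have hmem' : r' ∈ R' := by simpa using hmem
  have hlt : ∀ i < n + 1, pm q i < n + 1 := by
    intro i hi
    have := hall i (List.mem_range.2 hi)
    rw [Bool.and_eq_true] at this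
    exact of_decide_eq_true this.1
  have hrest : ∀ i < n + 1, ∀ j < n + 1, (i = j ∨ pm q i ≠ pm q j) ∧
      arc (2 ^ tri n * m + r) (pm q i) (pm q j) = arc r' i j := by
    intro i hi j hj
    have := hall i (List.mem_range.2 hi)
    rw [Bool.and_eq_true, List.all_eq_true] at this
    have := this.2 j (List.mem_range.2 hj)
    simp only [Bool.and_eq_true, Bool.or_eq_true, beq_iff_eq, Bool.not_eq_true', beq_eq_false_iff_ne] at this
    exact this
  refine ⟨r', hmem', hR' r' hmem', fun i => e ⟨pm q i, hlt i i.2⟩, ?_, ?_⟩
  · intro i j hij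
    have := he hij
    have := congrArg Fin.val this
    rcases (hrest i i.2 j j.2).1 with h | h
    · exact Fin.ext h
    · exact absurd this h
  · intro i j
    rw [hT]
    simp only
    rw [(hrest i i.2 j j.2).2]

lemma cl1 : Classified 1 R1 := by
  intro T h0 _
  refine ⟨0, by simp [R1], by simp [tri], id, Function.injective_id, ?_⟩
  intro i j
  have hi : i = 0 := Subsingleton.elim _ _
  have hj : j = 0 := Subsingleton.elim _ _
  subst hi; subst hj
  simp [h0, arc]

lemma cl2 : Classified 2 R2 := step check1 (by decide +kernel) cl1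
lemma cl3 : Classified 3 R3 := step check2 (by decide +kernel) cl2
lemma cl4 : Classified 4 R4 := step check3 (by decide +kernel) cl3
lemma cl5 : Classified 5 R5 := step check4 (by decide +kernel) cl4
lemma cl6 : Classified 6 R6 := step check5 (by decide +kernel) cl5

/-! ### Counting Hamiltonian circuits -/

/-- the number of ways to continue a path ending in `v`, having visited `mask`, by `k` further
vertices and then back to `0` -/
def go (A : ℕ → ℕ → Bool) : ℕ → ℕ → ℕ → ℕ
  | 0, v, _ => if A v 0 then 1 else 0
  | k + 1, v, mask => ((List.range 7).map (fun w =>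
      if !(mask.testBit w) && A v w then go A k w (mask ||| 2 ^ w) else 0)).sum

/-- evaluate the first argument, then apply the function -/
def force (n : ℕ) {α : Type} (f : ℕ → α) : α := Nat.rec (f 0) (fun m _ => f (m + 1)) n

lemma force_eq (n : ℕ) {α : Type} (f : ℕ → α) : force n f = f n := by
  cases n <;> rfl

/-- a faster version of `go` for a bit matrix -/
def goM (M : ℕ) : ℕ → ℕ → ℕ → ℕ
  | 0, v, _ => bif M.testBit (7 * v) then 1 else 0
  | k + 1, v, mask => force ((M >>> (7 * v)) &&& (127 ^^^ mask)) fun av =>
      (bif av.testBit 0 then goM M k 0 (mask ||| 2 ^ 0) else 0) +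
      ((bif av.testBit 1 then goM M k 1 (mask ||| 2 ^ 1) else 0) +
      ((bif av.testBit 2 then goM M k 2 (mask ||| 2 ^ 2) else 0) +
      ((bif av.testBit 3 then goM M k 3 (mask ||| 2 ^ 3) else 0) +
      ((bif av.testBit 4 then goM M k 4 (mask ||| 2 ^ 4) else 0) +
      ((bif av.testBit 5 then goM M k 5 (mask ||| 2 ^ 5) else 0) +
      ((bif av.testBit 6 then goM M k 6 (mask ||| 2 ^ 6) else 0)))))))

lemma goM_eq (M k : ℕ) : ∀ (v mask : ℕ),
    goM M k v mask = go (fun v w => M.testBit (7 * v + w)) k v mask := by
  induction k with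
  | zero =>
    intro v mask
    rw [goM, go]
    simp only [add_zero]
    cases M.testBit (7 * v) <;> rfl
  | succ k ih =>
    intro v mask
    rw [goM, go, force_eq]
    simp only [ih]
    have h : ∀ w < 7, ((M >>> (7 * v)) &&& (127 ^^^ mask)).testBit w =
        (!(mask.testBit w) && M.testBit (7 * v + w)) := by
      intro w hw
      rw [Nat.testBit_and, Nat.testBit_shiftRight, Nat.testBit_xor]
      have : Nat.testBit 127 w = true := by interval_cases w <;> rfl
      rw [this]
      cases M.testBit (7 * v + w) <;> cases mask.testBit w <;> rfl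
    rw [h 0 (by omega), h 1 (by omega), h 2 (by omega), h 3 (by omega), h 4 (by omega),
      h 5 (by omega), h 6 (by omega)]
    simp only [List.range_succ, List.range_zero, List.nil_append, List.cons_append, List.map_cons,
      List.map_nil, List.sum_cons, List.sum_nil, add_zero]
    simp only [Bool.cond_eq_ite]

/-- the bit matrix of a coded tournament -/
def mat (c : ℕ) : ℕ :=
  (List.range 7).foldl (fun s i => (List.range 7).foldl (fun s j =>
    bif arc c i j then s ||| 2 ^ (7 * i + j) else s) s) 0

/-- all values -/
lemma values : (R6.all fun r => (List.range 64).all fun m =>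
    force (mat (2 ^ tri 6 * m + r)) fun M =>
      ((List.range 7).all fun i => (List.range 7).all fun j =>
        arc (2 ^ tri 6 * m + r) i j == M.testBit (7 * i + j)) &&
      !(goM M 6 0 1 == 23)) = true := by
  decide +kernel

/-- closing condition -/
def cond (A : ℕ → ℕ → Bool) : ℕ → List ℕ → Prop
  | v, [] => A v 0 = true
  | v, w :: l => A v w = true ∧ cond A w l

/-- the lists of continuations -/
def L (A : ℕ → ℕ → Bool) : ℕ → ℕ → Finset ℕ → Finset (List ℕ)
  | 0, v, _ => if A v 0 then {[]} else ∅
  | k + 1, v, S => ((Finset.range 7).filter (fun w => w ∉ S ∧ A v w = true)).biUnion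
      (fun w => (L A k w (insert w S)).image (List.cons w))

lemma mem_L (A : ℕ → ℕ → Bool) (k : ℕ) : ∀ (v : ℕ) (S : Finset ℕ) (l : List ℕ),
    l ∈ L A k v S ↔ l.length = k ∧ l.Nodup ∧ (∀ x ∈ l, x < 7 ∧ x ∉ S) ∧ cond A v l := by
  induction k with
  | zero =>
    intro v S l
    rw [L]
    constructor
    · intro h
      split_ifs at h with hA
      · rw [Finset.mem_singleton] at h
        subst h
        simp [cond, hA]
      · simp at h
    · rintro ⟨h1, -, -, h2⟩
      rw [List.length_eq_zero_iff] at h1
      subst h1
      rw [cond] at h2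
      simp [h2]
  | succ k ih =>
    intro v S l
    rw [L]
    simp only [Finset.mem_biUnion, Finset.mem_filter, Finset.mem_range, Finset.mem_image, ih]
    constructor
    · rintro ⟨w, ⟨hw, hwS, hA⟩, l', ⟨h1, h2, h3, h4⟩, rfl⟩
      refine ⟨by simp [h1], ?_, ?_, ⟨hA, h4⟩⟩
      · rw [List.nodup_cons]
        exact ⟨fun h => (h3 w h).2 (Finset.mem_insert_self _ _), h2⟩
      · intro x hx
        rw [List.mem_cons] at hx
        rcases hx with rfl | hx
        · exact ⟨hw, hwS⟩
        · exact ⟨(h3 x hx).1, fun h => (h3 x hx).2 (Finset.mem_insert_of_mem h)⟩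
    · rintro ⟨h1, h2, h3, h4⟩
      match l, h1, h2, h3, h4 with
      | w :: l', h1, h2, h3, h4 =>
        rw [List.nodup_cons] at h2
        refine ⟨w, ⟨(h3 w (by simp)).1, (h3 w (by simp)).2, h4.1⟩, l', ⟨by simpa using h1, h2.2, ?_,
          h4.2⟩, rfl⟩
        intro x hx
        refine ⟨(h3 x (by simp [hx])).1, ?_⟩
        rw [Finset.mem_insert]
        rintro (rfl | h)
        · exact h2.1 hx
        · exact (h3 x (by simp [hx])).2 h

lemma card_L (A : ℕ → ℕ → Bool) (k : ℕ) : ∀ (v mask : ℕ) (S : Finset ℕ),
    (∀ w < 7, w ∈ S ↔ mask.testBit w = true) → (L A k v S).card = go A k v mask := by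
  induction k with
  | zero =>
    intro v mask S _
    rw [L, go]
    split_ifs <;> simp
  | succ k ih =>
    intro v mask S hS
    rw [L, go, Finset.card_biUnion]
    · rw [Finset.sum_filter]
      have : ∀ f : ℕ → ℕ, ((List.range 7).map f).sum = ∑ w ∈ Finset.range 7, f w := by
        intro f
        rw [Finset.sum_range]
        simp [List.range_succ, Fin.sum_univ_succ, add_assoc]
      rw [this]
      refine Finset.sum_congr rfl fun w hw => ?_
      rw [Finset.mem_range] at hw
      rw [Finset.card_image_of_injective _ (List.cons_injective)]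
      have hiff : (w ∉ S ∧ A v w = true) ↔ ((!(mask.testBit w) && A v w) = true) := by
        rw [hS w hw]
        simp
      by_cases hc : (w ∉ S ∧ A v w = true)
      · rw [if_pos hc, if_pos (hiff.1 hc)]
        apply ih
        intro x hx
        rw [Finset.mem_insert, hS x hx, Nat.testBit_or, Nat.testBit_two_pow]
        simp only [Bool.or_eq_true, decide_eq_true_eq]
        constructor
        · rintro (rfl | h)
          · exact Or.inr rfl
          · exact Or.inl h
        · rintro (h | h)
          · exact Or.inr h
          · exact Or.inl h.symm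
      · rw [if_neg hc, if_neg (fun h => hc (hiff.2 h))]
    · intro x _ y _ hxy
      rw [Function.onFun, Finset.disjoint_left]
      intro l hl hl'
      rw [Finset.mem_image] at hl hl'
      obtain ⟨a, -, rfl⟩ := hl
      obtain ⟨b, -, hb⟩ := hl'
      simp only [List.cons.injEq] at hb
      exact hxy hb.1.symm

/-- closed walks through all seven vertices starting at `0` -/
def walks (T : Fin 7 → Fin 7 → Prop) : Set (Fin 7 → Fin 7) :=
  {p | Function.Injective p ∧ p 0 = 0 ∧ ∀ i, T (p i) (p (i + 1))}

lemma walks_ncard (T : Fin 7 → Fin 7 → Prop) (A : ℕ → ℕ → Bool)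
    (hA : ∀ i j : Fin 7, T i j ↔ A i j = true) : (walks T).ncard = go A 6 0 1 := by
  rw [← card_L A 6 0 1 {0} (by decide), ← Set.ncard_coe_finset]
  refine Set.ncard_congr (fun p _ => [(p 1).val, (p 2).val, (p 3).val, (p 4).val, (p 5).val,
    (p 6).val]) ?_ ?_ ?_
  · rintro p ⟨hp, hp0, hT⟩
    rw [Finset.mem_coe, mem_L]
    refine ⟨rfl, ?_, ?_, ?_⟩
    · have : ∀ i j : Fin 7, i ≠ j → (p i).val ≠ (p j).val := by
        intro i j hij h
        exact hij (hp (Fin.ext h))
      simp [this]
    · intro x hx
      have : ∀ i : Fin 7, i ≠ 0 → (p i).val < 7 ∧ (p i).val ∉ ({0} : Finset ℕ) := by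
        intro i hi
        refine ⟨(p i).2, ?_⟩
        rw [Finset.mem_singleton]
        intro h
        apply hi
        apply hp
        rw [hp0]
        exact Fin.ext h
      simp only [List.mem_cons, List.not_mem_nil, or_false] at hx
      rcases hx with rfl | rfl | rfl | rfl | rfl | rfl <;> exact this _ (by decide)
    · have h := fun i => (hA _ _).1 (hT i)
      have h0 := h 0
      have h1 := h 1
      have h2 := h 2
      have h3 := h 3
      have h4 := h 4
      have h5 := h 5
      have h6 := h 6
      have e6 : (6 + 1 : Fin 7) = 0 := rfl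
      rw [e6] at h6
      rw [hp0] at h0 h6
      exact ⟨h0, h1, h2, h3, h4, h5, h6⟩
  · rintro p q ⟨hp, hp0, hT⟩ ⟨hq, hq0, hT'⟩ h
    simp only [List.cons.injEq, and_true] at h
    obtain ⟨h1, h2, h3, h4, h5, h6⟩ := h
    funext i
    apply Fin.ext
    fin_cases i
    · show (p 0).val = (q 0).val
      rw [hp0, hq0]
    · exact h1
    · exact h2
    · exact h3
    · exact h4
    · exact h5
    · exact h6
  · intro l hl
    rw [Finset.mem_coe, mem_L] at hl
    obtain ⟨hlen, hnd, hS, hc⟩ := hl
    match l, hlen, hnd, hS, hc with
    | [a, b, c, d, e, f], _, hnd, hS, hc =>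
      have h := hS
      simp only [List.mem_cons, List.not_mem_nil, or_false, forall_eq_or_imp, forall_eq,
        Finset.mem_singleton] at h
      obtain ⟨⟨ha, ha0⟩, ⟨hb, hb0⟩, ⟨hc', hc0⟩, ⟨hd, hd0⟩, ⟨he, he0⟩, ⟨hf, hf0⟩⟩ := h
      simp only [List.nodup_cons, List.mem_cons, List.not_mem_nil, or_false, not_or,
        not_false_eq_true, List.nodup_nil, and_true] at hnd
      obtain ⟨⟨ab, ac, ad, ae, af⟩, ⟨bc, bd, be, bf⟩, ⟨cd, ce, cf⟩, ⟨de, df⟩, ef⟩ := hnd
      refine ⟨![0, ⟨a, ha⟩, ⟨b, hb⟩, ⟨c, hc'⟩, ⟨d, hd⟩, ⟨e, he⟩, ⟨f, hf⟩], ⟨?_, rfl, ?_⟩, rfl⟩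
      · intro i j hij
        have hij := congrArg Fin.val hij
        fin_cases i <;> fin_cases j <;> first | rfl | (exfalso; simp at hij; omega)
      · obtain ⟨c0, c1, c2, c3, c4, c5, c6⟩ := hc
        intro i
        rw [hA]
        fin_cases i
        · exact c0
        · exact c1
        · exact c2
        · exact c3
        · exact c4
        · exact c5
        · exact c6


/-- no tournament on seven vertices has exactly 23 closed walks of this kind -/
lemma main7 (T : Fin 7 → Fin 7 → Prop) (h0 : ∀ i, ¬ T i i) (h1 : ∀ i j, i ≠ j → (T i j ↔ ¬ T j i)) :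
    ∃ e : Fin 7 → Fin 7, Function.Injective e ∧ (walks (fun i j => T (e i) (e j))).ncard ≠ 23 := by
  obtain ⟨r, hrR, hr, m, hm, e, he, hT⟩ := extend cl6 T h0 h1
  refine ⟨e, he, ?_⟩
  have h := values
  rw [List.all_eq_true] at h
  have h := h r hrR
  rw [List.all_eq_true] at h
  have h := h m (List.mem_range.2 hm)
  rw [force_eq, Bool.and_eq_true, List.all_eq_true] at h
  set M := mat (2 ^ tri 6 * m + r)
  rw [walks_ncard (fun i j => T (e i) (e j)) (fun v w => M.testBit (7 * v + w)), ← goM_eq]
  · intro h23
    rw [h23] at h
    simp at h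
  · intro i j
    rw [hT]
    have := h.1 i.val (List.mem_range.2 i.2)
    rw [List.all_eq_true] at this
    have := this j.val (List.mem_range.2 j.2)
    rw [beq_iff_eq] at this
    rw [this]

end Pool.Agent.Tour.Seven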